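import Mathlib
import Pool.Agent.H38.LR.S8.Helper601.Selberg

set_option autoImplicit false

open Finset Nat ArithmeticFunction BoundingSieve

namespace Pool.Agent.Helper601

/-- Product of the primes up to `R` that do not divide `q`. -/
def PP (q R : ℕ) : ℕ := ∏ p ∈ (Finset.Icc 1 R).filter (fun p => p.Prime ∧ ¬ p ∣ q), p

theorem PP_squarefree (q R : ℕ) : Squarefree (PP q R) := by
  unfold PP
  refine Finset.squarefree_prod_of_pairwise_isCoprime (fun p hp r hr hpr ↦ ?_) fun p hp ↦ ?_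
  · have h1 := (Finset.mem_filter.mp hp).2.1
    have h2 := (Finset.mem_filter.mp hr).2.1
    simp only [← coprime_iff_isRelPrime]
    exact (coprime_primes h1 h2).mpr hpr
  · exact (Finset.mem_filter.mp hp).2.1.squarefree

theorem prime_dvd_PP {q R p : ℕ} (hp : p.Prime) : p ∣ PP q R ↔ p ≤ R ∧ ¬ p ∣ q := by
  unfold PP
  rw [Prime.dvd_finsetProd_iff hp.prime]
  constructor
  · rintro ⟨r, hr, hpr⟩
    rw [Finset.mem_filter, Finset.mem_Icc] at hr
    have : p = r := (Nat.prime_dvd_prime_iff_eq hp hr.2.1).mp hpr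
    subst this
    exact ⟨hr.1.2, hr.2.2⟩
  · rintro ⟨h1, h2⟩
    refine ⟨p, ?_, dvd_rfl⟩
    rw [Finset.mem_filter, Finset.mem_Icc]
    exact ⟨⟨hp.one_lt.le, h1⟩, hp, h2⟩

theorem dvd_PP_of_squarefree {q R l : ℕ} (hl : Squarefree l) (hlR : l ≤ R)
    (hlq : Nat.Coprime l q) : l ∣ PP q R := by
  have hl0 : l ≠ 0 := hl.ne_zero
  rw [← Nat.prod_primeFactors_of_squarefree hl]
  unfold PP
  apply Finset.prod_dvd_prod_of_subset
  intro p hp
  rw [Nat.mem_primeFactors] at hp
  rw [Finset.mem_filter, Finset.mem_Icc]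
  refine ⟨⟨hp.1.one_lt.le, (Nat.le_of_dvd (Nat.pos_of_ne_zero hl0) hp.2.1).trans hlR⟩, hp.1, ?_⟩
  intro hpq
  have := Nat.dvd_gcd hp.2.1 hpq
  rw [hlq] at this
  exact hp.1.one_lt.ne' (Nat.dvd_one.mp this)

theorem coprime_of_dvd_PP {q R l : ℕ} (h : l ∣ PP q R) : Nat.Coprime l q := by
  rw [Nat.coprime_iff_gcd_eq_one]
  by_contra hne
  obtain ⟨p, hp, hpd⟩ := Nat.exists_prime_and_dvd hne
  have h1 : p ∣ l := hpd.trans (Nat.gcd_dvd_left _ _)
  have h2 : p ∣ q := hpd.trans (Nat.gcd_dvd_right _ _)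
  exact ((prime_dvd_PP hp).mp (h1.trans h)).2 h2

/-- reciprocal as an arithmetic function -/
noncomputable def invAF : ArithmeticFunction ℝ where
  toFun n := (n : ℝ)⁻¹
  map_zero' := by simp

theorem invAF_apply (n : ℕ) : invAF n = (n : ℝ)⁻¹ := rfl

theorem invAF_mult : invAF.IsMultiplicative := by
  refine ⟨by simp [invAF_apply], ?_⟩
  intro m n _
  simp [invAF_apply, mul_comm]

/-- count of solutions of a congruence -/
theorem count_dvd_AP {a q d N : ℕ} (hd : 0 < d) (hdq : Nat.Coprime d q) :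
    |((((Finset.range N).filter (fun k => d ∣ a + k * q)).card : ℕ) : ℝ) - (N : ℝ) / d| ≤ 1 := by
  -- find a residue
  obtain ⟨r, hr⟩ : ∃ r : ℕ, ∀ k : ℕ, d ∣ a + k * q ↔ k ≡ r [MOD d] := by
    -- choose r with a + r q ≡ 0 mod d
    obtain ⟨r, hr⟩ : ∃ r : ℕ, d ∣ a + r * q := by
      have : NeZero d := ⟨hd.ne'⟩
      refine ⟨((-(a : ZMod d)) * (q : ZMod d)⁻¹).val, ?_⟩
      rw [← ZMod.natCast_eq_zero_iff]
      push_cast
      rw [ZMod.natCast_zmod_val, mul_assoc, mul_comm ((q : ZMod d)⁻¹),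
        ZMod.coe_mul_inv_eq_one q hdq.symm]
      ring
    refine ⟨r, fun k => ?_⟩
    constructor
    · intro h
      have h1 : a + k * q ≡ a + r * q [MOD d] :=
        ((Nat.modEq_zero_iff_dvd.mpr h).trans (Nat.modEq_zero_iff_dvd.mpr hr).symm)
      have h2 : k * q ≡ r * q [MOD d] := Nat.ModEq.add_left_cancel' a h1
      exact Nat.ModEq.cancel_right_of_coprime hdq h2
    · intro h
      have h1 : a + k * q ≡ a + r * q [MOD d] := (h.mul_right q).add_left a
      exact Nat.modEq_zero_iff_dvd.mp (h1.trans (Nat.modEq_zero_iff_dvd.mpr hr))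
  have hc : (((Finset.range N).filter (fun k => d ∣ a + k * q)).card) =
      N / d + if r % d < N % d then 1 else 0 := by
    rw [← Nat.count_modEq_card N hd r, Nat.count_eq_card_filter_range]
    congr 1
    ext k
    simp [hr]
  rw [hc]
  have hd' : (0 : ℝ) < d := by exact_mod_cast hd
  have hN : (N : ℝ) / d = ((N / d : ℕ) : ℝ) + ((N % d : ℕ) : ℝ) / d := by
    have : (N : ℝ) = d * ((N / d : ℕ) : ℝ) + ((N % d : ℕ) : ℝ) := by
      exact_mod_cast (Nat.div_add_mod N d).symm
    rw [this]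
    field_simp
  rw [hN]
  have h1 : 0 ≤ ((N % d : ℕ) : ℝ) / d := by positivity
  have h2 : ((N % d : ℕ) : ℝ) / d ≤ 1 := by
    rw [div_le_one hd']
    exact_mod_cast (Nat.mod_lt _ hd).le
  rw [abs_le]
  split_ifs <;> push_cast <;> constructor <;> linarith

/-- The sieve for an arithmetic progression. -/
noncomputable def apSieve (a q N R : ℕ) : BoundingSieve where
  support := (Finset.range N).image (fun k => a + k * q)
  prodPrimes := PP q R
  prodPrimes_squarefree := PP_squarefree q R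
  weights := fun _ => 1
  weights_nonneg := fun _ => zero_le_one
  totalMass := N
  nu := invAF
  nu_mult := invAF_mult
  nu_pos_of_prime := by
    intro p hp _
    rw [invAF_apply]
    have : (0 : ℝ) < p := by exact_mod_cast hp.pos
    positivity
  nu_lt_one_of_prime := by
    intro p hp _
    rw [invAF_apply]
    have : (1 : ℝ) < p := by exact_mod_cast hp.one_lt
    exact inv_lt_one_of_one_lt₀ this

theorem apSieve_rem {a q N R d : ℕ} (hq : 0 < q) (hd : d ∣ PP q R) :
    |(apSieve a q N R).rem d| ≤ 1 := by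
  have hd0 : 0 < d := Nat.pos_of_ne_zero (ne_zero_of_dvd_ne_zero (PP_squarefree q R).ne_zero hd)
  have h := count_dvd_AP (a := a) (N := N) hd0 (coprime_of_dvd_PP hd)
  simp only [BoundingSieve.rem, BoundingSieve.multSum, apSieve]
  rw [Finset.sum_image (by
    intro x _ y _ hxy
    simp only at hxy
    exact Nat.eq_of_mul_eq_mul_right hq (by omega))]
  rw [← Finset.sum_filter, Finset.sum_const, nsmul_eq_mul, mul_one, invAF_apply]
  convert h using 2
  ring

theorem selS_ge (a q N R : ℕ) :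
    (∑ l ∈ (Finset.Icc 1 R).filter (fun l => Squarefree l ∧ Nat.Coprime l q), (l : ℝ)⁻¹) ≤
      selS (apSieve a q N R) R := by
  unfold selS
  have h1 : ∀ l ∈ (Finset.Icc 1 R).filter (fun l => Squarefree l ∧ Nat.Coprime l q),
      (l : ℝ)⁻¹ ≤ (apSieve a q N R).selbergTerms l := by
    intro l hl
    rw [Finset.mem_filter, Finset.mem_Icc] at hl
    rw [selbergTerms_apply]
    change (l : ℝ)⁻¹ ≤ (l : ℝ)⁻¹ * _
    have hl0 : (0 : ℝ) < l := by exact_mod_cast hl.1.1
    have : (1 : ℝ) ≤ ∏ p ∈ l.primeFactors, (1 - (apSieve a q N R).nu p)⁻¹ := by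
      have h0 : (∏ _p ∈ l.primeFactors, (1 : ℝ)) ≤
          ∏ p ∈ l.primeFactors, (1 - (apSieve a q N R).nu p)⁻¹ := by
        apply Finset.prod_le_prod (fun _ _ => zero_le_one)
        intro p hp
        have hpp := (Nat.mem_primeFactors.mp hp).1
        have hp1 : (1 : ℝ) < p := by exact_mod_cast hpp.one_lt
        change (1 : ℝ) ≤ (1 - (p : ℝ)⁻¹)⁻¹
        rw [one_le_inv₀]
        · have : 0 < (p : ℝ)⁻¹ := by positivity
          linarith
        · have : (p : ℝ)⁻¹ < 1 := inv_lt_one_of_one_lt₀ hp1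
          linarith
      rwa [Finset.prod_const_one] at h0
    exact le_mul_of_one_le_right (by positivity) this
  refine (Finset.sum_le_sum h1).trans ?_
  apply Finset.sum_le_sum_of_subset_of_nonneg
  · intro l hl
    rw [Finset.mem_filter, Finset.mem_Icc] at hl
    rw [Finset.mem_filter, Nat.mem_divisors]
    exact ⟨⟨dvd_PP_of_squarefree hl.2.1 hl.1.2 hl.2.2, (PP_squarefree q R).ne_zero⟩,
      by exact_mod_cast hl.1.2⟩
  · intro l hl _
    rw [Finset.mem_filter, Nat.mem_divisors] at hl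
    exact (selbergTerms_pos (s := apSieve a q N R) hl.1.1).le

theorem sum_inv_sq_le (R : ℕ) : (∑ k ∈ Finset.Icc 1 R, ((k : ℝ) ^ 2)⁻¹) ≤ 2 := by
  have : ∀ n : ℕ, (∑ k ∈ Finset.Icc 1 (n + 1), ((k : ℝ) ^ 2)⁻¹) ≤ 2 - 1 / ((n : ℝ) + 1) := by
    intro n
    induction n with
    | zero => norm_num
    | succ n ih =>
      rw [Finset.sum_Icc_succ_top (by omega)]
      have h1 : (0 : ℝ) < (n : ℝ) + 1 := by positivity
      have h2 : (0 : ℝ) < (n : ℝ) + 1 + 1 := by positivity
      have h3 : (((n : ℝ) + 1 + 1) ^ 2)⁻¹ ≤ 1 / ((n : ℝ) + 1) - 1 / ((n : ℝ) + 1 + 1) := by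
        rw [div_sub_div _ _ h1.ne' h2.ne', inv_eq_one_div, div_le_div_iff₀ (by positivity) (by positivity)]
        nlinarith
      push_cast
      linarith
  rcases R with _ | n
  · simp
  · have h := this n
    have : 0 ≤ 1 / ((n : ℝ) + 1) := by positivity
    linarith

theorem sum_inv_le_two_mul (q R : ℕ) :
    (∑ n ∈ (Finset.Icc 1 R).filter (fun n => Nat.Coprime n q), (n : ℝ)⁻¹) ≤
    2 * (∑ l ∈ (Finset.Icc 1 R).filter (fun l => Squarefree l ∧ Nat.Coprime l q), (l : ℝ)⁻¹) := by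
  classical
  have key : ∀ n : ℕ, 0 < n → ∃ a b : ℕ, 0 < a ∧ 0 < b ∧ b ^ 2 * a = n ∧ Squarefree a :=
    fun n hn => Nat.sq_mul_squarefree_of_pos hn
  choose! fa fb hfa hfb hmul hsq using key
  set A := (Finset.Icc 1 R).filter (fun l => Squarefree l ∧ Nat.Coprime l q) with hA
  set S := (Finset.Icc 1 R).filter (fun n => Nat.Coprime n q) with hS
  have hSpos : ∀ n ∈ S, 0 < n := by
    intro n hn
    rw [hS, Finset.mem_filter, Finset.mem_Icc] at hn
    omega
  have h1 : (∑ n ∈ S, (n : ℝ)⁻¹) =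
      ∑ x ∈ S.image (fun n => (fa n, fb n)), ((x.1 : ℝ)⁻¹ * ((x.2 : ℝ) ^ 2)⁻¹) := by
    rw [Finset.sum_image]
    · apply Finset.sum_congr rfl
      intro n hn
      have := hmul n (hSpos n hn)
      rw [← mul_inv]
      congr 1
      have h2 : ((fb n ^ 2 * fa n : ℕ) : ℝ) = n := by rw [this]
      push_cast at h2
      simp only
      rw [← h2]; ring
    · intro n hn m hm hnm
      simp only [Prod.mk.injEq] at hnm
      rw [← hmul n (hSpos n hn), ← hmul m (hSpos m hm), hnm.1, hnm.2]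
  rw [h1]
  have h2 : S.image (fun n => (fa n, fb n)) ⊆ A ×ˢ (Finset.Icc 1 R) := by
    intro x hx
    rw [Finset.mem_image] at hx
    obtain ⟨n, hn, rfl⟩ := hx
    have hpos := hSpos n hn
    rw [hS, Finset.mem_filter, Finset.mem_Icc] at hn
    have hm := hmul n hpos
    have hfapos := hfa n hpos
    have hfbpos := hfb n hpos
    rw [Finset.mem_product, hA, Finset.mem_filter, Finset.mem_Icc, Finset.mem_Icc]
    have hdvd : fa n ∣ n := ⟨fb n ^ 2, by rw [mul_comm]; exact hm.symm⟩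
    have hdvd2 : fb n ∣ n := ⟨fb n * fa n, by rw [← mul_assoc, ← sq]; exact hm.symm⟩
    refine ⟨⟨⟨hfapos, (Nat.le_of_dvd hpos hdvd).trans hn.1.2⟩, hsq n hpos,
      Nat.Coprime.coprime_dvd_left hdvd hn.2⟩, hfbpos, (Nat.le_of_dvd hpos hdvd2).trans hn.1.2⟩
  refine (Finset.sum_le_sum_of_subset_of_nonneg h2 (fun _ _ _ => by positivity)).trans ?_
  rw [Finset.sum_product]
  have h3 : ∀ l ∈ A, (∑ k ∈ Finset.Icc 1 R, ((l : ℝ)⁻¹ * ((k : ℝ) ^ 2)⁻¹)) ≤ (l : ℝ)⁻¹ * 2 := by
    intro l _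
    rw [← Finset.mul_sum]
    have := sum_inv_sq_le R
    gcongr
  refine (Finset.sum_le_sum h3).trans ?_
  rw [← Finset.sum_mul, mul_comm]

theorem sum_inv_coprime_ge {q : ℕ} (hq : q = 1 ∨ q.Prime) (R : ℕ) :
    (1 / 2) * (∑ n ∈ Finset.Icc 1 R, (n : ℝ)⁻¹) ≤
    (∑ n ∈ (Finset.Icc 1 R).filter (fun n => Nat.Coprime n q), (n : ℝ)⁻¹) := by
  rcases hq with rfl | hq
  · simp only [Nat.coprime_one_right_iff, Finset.filter_true]
    have : 0 ≤ (∑ n ∈ Finset.Icc 1 R, (n : ℝ)⁻¹) := Finset.sum_nonneg (fun _ _ => by positivity)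
    linarith
  · have hsplit := Finset.sum_filter_add_sum_filter_not (Finset.Icc 1 R)
      (fun n => Nat.Coprime n q) (fun n : ℕ => (n : ℝ)⁻¹)
    have h1 : (∑ n ∈ (Finset.Icc 1 R).filter (fun n => ¬ Nat.Coprime n q), (n : ℝ)⁻¹) ≤
        (q : ℝ)⁻¹ * ∑ n ∈ Finset.Icc 1 R, (n : ℝ)⁻¹ := by
      rw [Finset.mul_sum]
      have h2 : (Finset.Icc 1 R).filter (fun n => ¬ Nat.Coprime n q) ⊆
          (Finset.Icc 1 R).image (fun m => q * m) := by
        intro n hn
        rw [Finset.mem_filter, Finset.mem_Icc] at hn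
        have hqn : q ∣ n := by
          by_contra hcon
          exact hn.2 ((hq.coprime_iff_not_dvd.mpr hcon).symm)
        obtain ⟨m, rfl⟩ := hqn
        rw [Finset.mem_image]
        refine ⟨m, ?_, rfl⟩
        rw [Finset.mem_Icc]
        have hm : 0 < m := by
          rcases Nat.eq_zero_or_pos m with h | h
          · subst h; omega
          · exact h
        exact ⟨hm, le_trans (Nat.le_mul_of_pos_left m hq.pos) hn.1.2⟩
      refine (Finset.sum_le_sum_of_subset_of_nonneg h2 (fun _ _ _ => by positivity)).trans ?_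
      rw [Finset.sum_image (by
        intro x _ y _ hxy
        exact Nat.eq_of_mul_eq_mul_left hq.pos hxy)]
      apply le_of_eq
      apply Finset.sum_congr rfl
      intro m _
      push_cast
      rw [mul_inv]
    have h2 : (q : ℝ)⁻¹ ≤ 1 / 2 := by
      have : (2 : ℝ) ≤ q := by exact_mod_cast hq.two_le
      rw [inv_eq_one_div]
      exact one_div_le_one_div_of_le (by norm_num) this
    have h3 : 0 ≤ (∑ n ∈ Finset.Icc 1 R, (n : ℝ)⁻¹) := Finset.sum_nonneg (fun _ _ => by positivity)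
    have h4 : (q : ℝ)⁻¹ * ∑ n ∈ Finset.Icc 1 R, (n : ℝ)⁻¹ ≤ 1 / 2 * ∑ n ∈ Finset.Icc 1 R, (n : ℝ)⁻¹ :=
      mul_le_mul_of_nonneg_right h2 h3
    linarith

theorem selS_ge_log {a q N R : ℕ} (hq : q = 1 ∨ q.Prime) :
    Real.log ((R : ℝ) + 1) / 4 ≤ selS (apSieve a q N R) R := by
  have h1 := selS_ge a q N R
  have h2 := sum_inv_le_two_mul q R
  have h3 := sum_inv_coprime_ge hq R
  have h4 := log_add_one_le_harmonic R
  rw [harmonic_eq_sum_Icc] at h4
  push_cast at h4
  linarith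

theorem sifted_ge {a q N R : ℕ} (hq : 0 < q) :
    (((Finset.range N).filter (fun k => (a + k * q).Prime)).card : ℝ) ≤
      (apSieve a q N R).siftedSum + (R + 1) := by
  classical
  have hinj : ∀ x ∈ Finset.range N, ∀ y ∈ Finset.range N,
      (fun k => a + k * q) x = (fun k => a + k * q) y → x = y := by
    intro x _ y _ hxy
    simp only at hxy
    exact Nat.eq_of_mul_eq_mul_right hq (by omega)
  have e : (apSieve a q N R).siftedSum =
      (((Finset.range N).filter (fun k => Nat.Coprime (PP q R) (a + k * q))).card : ℝ) := by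
    unfold BoundingSieve.siftedSum
    have h0 : (apSieve a q N R).support = (Finset.range N).image (fun k => a + k * q) := rfl
    rw [h0, Finset.sum_image hinj, Finset.card_filter]
    push_cast
    apply Finset.sum_congr rfl
    intro k _
    have h : (apSieve a q N R).prodPrimes = PP q R := rfl
    have h' : (apSieve a q N R).weights (a + k * q) = 1 := rfl
    by_cases hc : Nat.Coprime (PP q R) (a + k * q)
    · rw [if_pos hc, if_pos (by rw [h]; exact hc), h']
    · rw [if_neg hc, if_neg (by rw [h]; exact hc)]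
  rw [e]
  have h1 : (Finset.range N).filter (fun k => (a + k * q).Prime) ⊆
      (Finset.range N).filter (fun k => Nat.Coprime (PP q R) (a + k * q)) ∪
      (Finset.range N).filter (fun k => a + k * q ≤ R) := by
    intro k hk
    rw [Finset.mem_filter] at hk
    rw [Finset.mem_union, Finset.mem_filter, Finset.mem_filter]
    by_cases h : a + k * q ≤ R
    · right; exact ⟨hk.1, h⟩
    · left
      refine ⟨hk.1, ?_⟩
      rw [Nat.coprime_comm, hk.2.coprime_iff_not_dvd, prime_dvd_PP hk.2]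
      tauto
  have h2 : ((Finset.range N).filter (fun k => a + k * q ≤ R)).card ≤ R + 1 := by
    have : ((Finset.range N).filter (fun k => a + k * q ≤ R)).card ≤ (Finset.range (R + 1)).card := by
      apply Finset.card_le_card_of_injOn (fun k => a + k * q)
      · intro k hk
        simp only [Finset.coe_filter, Set.mem_setOf_eq, Finset.coe_range, Set.mem_Iio] at hk ⊢
        omega
      · intro x hx y hy hxy
        exact hinj x (Finset.mem_filter.mp hx).1 y (Finset.mem_filter.mp hy).1 hxy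
    simpa using this
  have h3 := (Finset.card_le_card h1).trans (Finset.card_union_le _ _)
  have h4 : ((Finset.range N).filter (fun k => (a + k * q).Prime)).card ≤
      ((Finset.range N).filter (fun k => Nat.Coprime (PP q R) (a + k * q))).card + (R + 1) := by
    omega
  exact_mod_cast h4

theorem bt_aux {a q N R : ℕ} (hq : q = 1 ∨ q.Prime) (hR : 1 ≤ R) :
    (((Finset.range N).filter (fun k => (a + k * q).Prime)).card : ℝ) ≤
      4 * N / Real.log ((R : ℝ) + 1) + (R : ℝ) ^ 4 + (R + 1) := by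
  have hq0 : 0 < q := by
    rcases hq with h | h
    · omega
    · exact h.pos
  have hR' : (1 : ℝ) ≤ R := by exact_mod_cast hR
  have h1 := sifted_ge (a := a) (q := q) (N := N) (R := R) hq0
  have h2 := siftedSum_le_selberg (apSieve a q N R) (R : ℝ) hR' 1 zero_le_one
    (fun d hd => apSieve_rem hq0 hd)
  have h3 := selS_ge_log (a := a) (N := N) (R := R) hq
  have hlog : 0 < Real.log ((R : ℝ) + 1) := Real.log_pos (by linarith)
  have h4 : (apSieve a q N R).totalMass / selS (apSieve a q N R) R ≤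
      4 * N / Real.log ((R : ℝ) + 1) := by
    change (N : ℝ) / _ ≤ _
    have : (N : ℝ) / selS (apSieve a q N R) R ≤ (N : ℝ) / (Real.log ((R : ℝ) + 1) / 4) := by
      apply div_le_div_of_nonneg_left (by positivity) (by positivity) h3
    refine this.trans (le_of_eq ?_)
    field_simp
  have h5 : (∑ d ∈ (divisors (apSieve a q N R).prodPrimes).filter (fun d : ℕ => (d : ℝ) ≤ R),
      ((apSieve a q N R).nu d)⁻¹) ≤ (R : ℝ) ^ 2 := by
    have h6 : (divisors (apSieve a q N R).prodPrimes).filter (fun d : ℕ => (d : ℝ) ≤ R) ⊆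
        Finset.Icc 1 R := by
      intro d hd
      rw [Finset.mem_filter, Nat.mem_divisors] at hd
      rw [Finset.mem_Icc]
      refine ⟨Nat.pos_of_ne_zero (ne_zero_of_dvd_ne_zero hd.1.2 hd.1.1), by exact_mod_cast hd.2⟩
    calc (∑ d ∈ (divisors (apSieve a q N R).prodPrimes).filter (fun d : ℕ => (d : ℝ) ≤ R),
          ((apSieve a q N R).nu d)⁻¹)
        = ∑ d ∈ (divisors (apSieve a q N R).prodPrimes).filter (fun d : ℕ => (d : ℝ) ≤ R),
          (d : ℝ) := by
          apply Finset.sum_congr rfl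
          intro d _
          change ((d : ℝ)⁻¹)⁻¹ = d
          rw [inv_inv]
      _ ≤ ∑ d ∈ Finset.Icc 1 R, (d : ℝ) :=
          Finset.sum_le_sum_of_subset_of_nonneg h6 (fun _ _ _ => by positivity)
      _ ≤ ∑ d ∈ Finset.Icc 1 R, (R : ℝ) := by
          apply Finset.sum_le_sum
          intro d hd
          exact_mod_cast (Finset.mem_Icc.mp hd).2
      _ = (R : ℝ) ^ 2 := by simp; ring
  have h7 : 0 ≤ (∑ d ∈ (divisors (apSieve a q N R).prodPrimes).filter (fun d : ℕ => (d : ℝ) ≤ R),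
      ((apSieve a q N R).nu d)⁻¹) := by
    apply Finset.sum_nonneg
    intro d _
    change 0 ≤ ((d : ℝ)⁻¹)⁻¹
    positivity
  have h8 : (∑ d ∈ (divisors (apSieve a q N R).prodPrimes).filter (fun d : ℕ => (d : ℝ) ≤ R),
      ((apSieve a q N R).nu d)⁻¹) ^ 2 ≤ (R : ℝ) ^ 4 := by
    calc _ ≤ ((R : ℝ) ^ 2) ^ 2 := by gcongr
      _ = (R : ℝ) ^ 4 := by ring
  linarith

/-- Brun-Titchmarsh inequality with an unspecified constant, for modulus one or a prime. -/
theorem brun_titchmarsh : ∃ C : ℝ, 1 ≤ C ∧ ∀ (a q N : ℕ), 2 ≤ N → (q = 1 ∨ q.Prime) →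
    (((Finset.range N).filter (fun k => (a + k * q).Prime)).card : ℝ) ≤
      C * N / Real.log N := by
  refine ⟨38, by norm_num, ?_⟩
  intro a q N hN hq
  have hN' : (2 : ℝ) ≤ N := by exact_mod_cast hN
  have hN0 : (0 : ℝ) < N := by linarith
  have hlogN : 0 < Real.log N := Real.log_pos (by linarith)
  set x : ℝ := (N : ℝ) ^ ((1 : ℝ) / 8) with hx
  have hx1 : 1 ≤ x := Real.one_le_rpow (by linarith) (by norm_num)
  have hR : 1 ≤ ⌊x⌋₊ := Nat.floor_pos.mpr hx1
  have h := bt_aux (a := a) (N := N) (R := ⌊x⌋₊) hq hR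
  have hfl : (⌊x⌋₊ : ℝ) ≤ x := Nat.floor_le (by linarith)
  have hfl2 : x < (⌊x⌋₊ : ℝ) + 1 := Nat.lt_floor_add_one x
  have hlogx : Real.log x = Real.log N / 8 := by
    rw [hx, Real.log_rpow hN0]; ring
  have hlog2 : Real.log N / 8 ≤ Real.log ((⌊x⌋₊ : ℝ) + 1) := by
    rw [← hlogx]
    exact Real.log_le_log (by linarith) hfl2.le
  have hx4 : x ^ 4 = Real.sqrt N := by
    rw [hx, ← Real.rpow_natCast, ← Real.rpow_mul hN0.le, Real.sqrt_eq_rpow]
    norm_num
  have hsq : 0 < Real.sqrt N := Real.sqrt_pos.mpr hN0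
  have hsq2 : Real.sqrt N * Real.sqrt N = N := Real.mul_self_sqrt hN0.le
  have hlogsq : Real.log N ≤ 2 * Real.sqrt N := by
    have h1 : Real.log (Real.sqrt N) ≤ Real.sqrt N - 1 := Real.log_le_sub_one_of_pos hsq
    rw [Real.log_sqrt hN0.le] at h1
    linarith
  have h1 : 4 * (N : ℝ) / Real.log ((⌊x⌋₊ : ℝ) + 1) ≤ 32 * N / Real.log N := by
    have : 4 * (N : ℝ) / Real.log ((⌊x⌋₊ : ℝ) + 1) ≤ 4 * (N : ℝ) / (Real.log N / 8) := by
      apply div_le_div_of_nonneg_left (by positivity) (by positivity) hlog2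
    refine this.trans (le_of_eq ?_)
    field_simp
    norm_num
  have h2 : (⌊x⌋₊ : ℝ) ^ 4 ≤ Real.sqrt N := by
    rw [← hx4]; gcongr
  have h3 : (⌊x⌋₊ : ℝ) + 1 ≤ 2 * Real.sqrt N := by
    have : x ≤ x ^ 4 := by
      nlinarith [mul_nonneg (sub_nonneg.mpr hx1) (by positivity : (0:ℝ) ≤ x * (x^2 + x + 1))]
    rw [hx4] at this
    linarith
  have h4 : 3 * Real.sqrt N ≤ 6 * N / Real.log N := by
    rw [le_div_iff₀ hlogN]
    nlinarith
  have h5 : 38 * (N : ℝ) / Real.log N = 32 * N / Real.log N + 6 * N / Real.log N := by ring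
  linarith

end Pool.Agent.Helper601
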